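import Pool.Agent.H74R2.WT.Stmts
set_option autoImplicit false
open MeasureTheory Set
namespace H74R2.WT
noncomputable section

/-- the piece of a trapezoid -/
def e2_pc {K : Subfield ℝ} (t : HT K) : Piece K := ⟨t.a, t.b, t.c2 - t.c1, t.k2 - t.k1, t.hab⟩

theorem e2_slice {K : Subfield ℝ} (t : HT K) (y : ℝ) :
    Integrable (fun x : ℝ => ind t.set ⟨x, y⟩) ∧
      ∫ x : ℝ, ind t.set ⟨x, y⟩ = (e2_pc t).f y := by
  by_cases h : t.a < y ∧ y < t.b
  · have e : (fun x : ℝ => ind t.set ⟨x, y⟩) =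
        (Ioo (t.c1 + (t.k1 : ℝ) * y) (t.c2 + (t.k2 : ℝ) * y)).indicator (fun _ => (1 : ℝ)) := by
      ext x
      unfold ind HT.set Set.indicator
      simp only [mem_setOf_eq, mem_Ioo, h, and_self, true_and]
    have hl := t.hlt y ⟨h.1, h.2⟩
    rw [e]
    constructor
    · rw [integrable_indicator_iff measurableSet_Ioo]
      exact integrableOn_const (by simp) (by simp)
    · rw [integral_indicator_const _ measurableSet_Ioo, Real.volume_real_Ioo_of_le hl.le]
      unfold Piece.f e2_pc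
      rw [if_pos h]
      push_cast
      simp only [smul_eq_mul]
      ring
  · have e : (fun x : ℝ => ind t.set ⟨x, y⟩) = fun _ => (0 : ℝ) := by
      ext x
      unfold ind HT.set
      rw [if_neg]
      intro hx
      exact h hx.1
    rw [e]
    refine ⟨integrable_zero _ _ _, ?_⟩
    unfold Piece.f e2_pc
    rw [if_neg h]
    simp

theorem e2_sum {K : Subfield ℝ} (y : ℝ) (ts : List (HT K)) :
    Integrable (fun x : ℝ => (ts.map (fun t => ind t.set ⟨x, y⟩)).sum) ∧
      ∫ x : ℝ, (ts.map (fun t => ind t.set ⟨x, y⟩)).sum = (ts.map (fun t => (e2_pc t).f y)).sum := by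
  induction ts with
  | nil => simp
  | cons t ts ih =>
    obtain ⟨h1, h2⟩ := e2_slice t y
    obtain ⟨i1, i2⟩ := ih
    simp only [List.map_cons, List.sum_cons]
    exact ⟨h1.add i1, by rw [integral_add h1 i1, h2, i2]⟩

theorem e2_hs (G : Set ℂ) (y : ℝ) (f : ℝ → ℝ) (hf : Integrable f)
    (h : ∀ᵐ x : ℝ, ind G ⟨x, y⟩ = f x) : hs G y = ∫ x, f x := by
  set S : Set ℝ := {x : ℝ | (⟨x, y⟩ : ℂ) ∈ G} with hS
  have e : (fun x : ℝ => ind G ⟨x, y⟩) = S.indicator (fun _ => (1 : ℝ)) := by
    ext x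
    have hx : x ∈ S ↔ (⟨x, y⟩ : ℂ) ∈ G := Iff.rfl
    by_cases h1 : (⟨x, y⟩ : ℂ) ∈ G
    · rw [Set.indicator_of_mem (hx.2 h1)]
      exact if_pos h1
    · rw [Set.indicator_of_notMem (fun h => h1 (hx.1 h))]
      exact if_neg h1
  have hm : AEMeasurable (fun x : ℝ => ind G ⟨x, y⟩) :=
    hf.1.aemeasurable.congr (Filter.EventuallyEq.symm h)
  have hn : NullMeasurableSet S volume := by
    have h1 : S = (fun x : ℝ => ind G ⟨x, y⟩) ⁻¹' {1} := by
      ext x
      simp only [hS, mem_setOf_eq, mem_preimage, mem_singleton_iff, ind]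
      split_ifs with hx
      · simp [hx]
      · simp [hx]
    rw [h1]
    exact hm.nullMeasurableSet_preimage (measurableSet_singleton _)
  calc hs G y = ∫ x, S.indicator (fun _ => (1 : ℝ)) x := by
        rw [integral_indicator₀ hn]
        simp [hs, hS, Measure.real]
    _ = ∫ x : ℝ, ind G ⟨x, y⟩ := by rw [← e]
    _ = ∫ x, f x := integral_congr_ae h

theorem t_E2 : T_E2 := by
  intro hD K G hG
  obtain ⟨ts, Y, hY⟩ := hD K G hG
  refine ⟨ts.map e2_pc, ?_⟩
  have hYc : (Y : Set ℝ).Countable := Y.finite_toSet.countable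
  filter_upwards [hYc.ae_notMem volume] with y hy
  obtain ⟨h1, h2⟩ := e2_sum y ts
  rw [List.map_map, e2_hs G y _ h1 ?_, h2]
  · rfl
  · have := (hY y (by simpa using hy)).countable.ae_notMem (volume : Measure ℝ)
    filter_upwards [this] with x hx
    by_contra hne
    exact hx hne

end
end H74R2.WT
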